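import Mathlib

/-! The topology of pointwise convergence on the endomorphism monoid of a structure with
oligomorphic automorphism group is minimal among Hausdorff semigroup topologies. -/

namespace Pool.Agent.X219.ST

open FirstOrder FirstOrder.Language Filter Topology Set

/-- Finitely many orbits of the automorphism group on `n`-tuples, for every `n`. -/
def Oligo (L : Language) (A : Type*) [L.Structure A] : Prop :=
  ∀ n : ℕ, ∃ S : Set (Fin n → A), S.Finite ∧
    ∀ x : Fin n → A, ∃ y ∈ S, ∃ g : A ≃[L] A, ∀ i, g (x i) = y i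

/-- The topology of pointwise convergence on `End(A)` (`A` discrete). -/
@[reducible] def pw (L : Language) (A : Type*) [L.Structure A] : TopologicalSpace (A →[L] A) :=
  TopologicalSpace.induced (fun f : A →[L] A => (f : A → A))
    (@Pi.topologicalSpace A (fun _ => A) (fun _ => ⊥))

/-- Composition is jointly continuous. -/
def SemigroupTop {L : Language} {A : Type*} [L.Structure A] (τ : TopologicalSpace (A →[L] A)) :
    Prop :=
  @Continuous ((A →[L] A) × (A →[L] A)) (A →[L] A) (@instTopologicalSpaceProd _ _ τ τ) τ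
    (fun p => p.1.comp p.2)

variable {L : Language} {A : Type*} [L.Structure A]

theorem pw_mem_nhds (e : ℕ ≃ A) {U : Set (A →[L] A)} {f : A →[L] A}
    (hU : U ∈ @nhds _ (pw L A) f) : ∃ n, ∀ s : A →[L] A, (∀ i < n, s (e i) = f (e i)) → s ∈ U := by
  let _ : TopologicalSpace A := ⊥
  have _ : DiscreteTopology A := ⟨rfl⟩
  rw [pw, nhds_induced, mem_comap] at hU
  obtain ⟨V, hV, hVU⟩ := hU
  rw [nhds_pi, Filter.mem_pi] at hV
  obtain ⟨I, hI, t, ht, hsub⟩ := hV
  obtain ⟨N, hN⟩ := (hI.image e.symm).bddAbove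
  refine ⟨N + 1, fun s hs => hVU (hsub fun x hx => ?_)⟩
  have h1 : e.symm x ≤ N := hN (mem_image_of_mem _ hx)
  have h2 := hs (e.symm x) (by omega)
  rw [Equiv.apply_symm_apply] at h2
  show s x ∈ t x
  rw [h2]
  exact mem_of_mem_nhds (ht x)

theorem hom_of_approx (φ : A → A) (h : ∀ K : Finset A, ∃ s : A →[L] A, ∀ x ∈ K, s x = φ x) :
    ∃ f : A →[L] A, ∀ x, f x = φ x := by
  classical
  refine ⟨⟨φ, fun {n} F x => ?_, fun {n} r x hr => ?_⟩, fun x => rfl⟩
  · obtain ⟨s, hs⟩ := h (insert (Structure.funMap F x) (Finset.univ.image x))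
    have h1 := hs (Structure.funMap F x) (Finset.mem_insert_self _ _)
    rw [← h1, s.map_fun]
    congr 1
    funext i
    exact hs (x i) (Finset.mem_insert_of_mem (Finset.mem_image_of_mem _ (Finset.mem_univ i)))
  · obtain ⟨s, hs⟩ := h (Finset.univ.image x)
    have h1 : φ ∘ x = s ∘ x := by
      funext i
      exact (hs (x i) (Finset.mem_image_of_mem _ (Finset.mem_univ i))).symm
    rw [h1]
    exact s.map_rel r x hr

theorem minimal [Countable A] [Infinite A] (hA : Oligo L A) (τ : TopologicalSpace (A →[L] A))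
    (hT2 : @T2Space _ τ) (hc : SemigroupTop τ) (hle : pw L A ≤ τ) : τ = pw L A := by
  refine le_antisymm ?_ hle
  have e : ℕ ≃ A := Classical.choice nonempty_equiv_of_countable
  have key : ∀ (a : A) (j : A →[L] A), ∀ᶠ s in @nhds _ τ j, s a = j a := by
    intro a j
    by_contra hno
    have hne : (@nhds _ τ j ⊓ 𝓟 {s : A →[L] A | s a ≠ j a}).NeBot := by
      rw [← frequently_mem_iff_neBot]
      exact not_eventually.1 hno
    let U : Ultrafilter (A →[L] A) := @Ultrafilter.of _ _ hne
    have hU : (U : Filter (A →[L] A)) ≤ @nhds _ τ j ⊓ 𝓟 {s : A →[L] A | s a ≠ j a} :=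
      @Ultrafilter.of_le _ _ hne
    have hU1 : (U : Filter (A →[L] A)) ≤ @nhds _ τ j := hU.trans inf_le_left
    have hU2 : ∀ᶠ s in (U : Filter (A →[L] A)), s a ≠ j a :=
      (hU.trans inf_le_right) (mem_principal_self _)
    -- limit orbits
    have hlim : ∀ n, ∃ t : A →[L] A, ∀ᶠ s in (U : Filter (A →[L] A)),
        ∃ k : A ≃[L] A, ∀ i < n, k (s (e i)) = t (e i) ∧ k (e i) = e i := by
      intro n
      obtain ⟨S, hS, hcov⟩ := hA (n + n)
      let tup : (A →[L] A) → Fin (n + n) → A := fun s =>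
        Fin.append (fun i : Fin n => s (e i)) (fun i : Fin n => e i)
      have h1 : (⋃ y ∈ S, {s : A →[L] A | ∃ g : A ≃[L] A, ∀ i, g (tup s i) = y i}) ∈ U := by
        refine Filter.mem_of_superset Filter.univ_mem fun s _ => ?_
        obtain ⟨y, hy, g, hg⟩ := hcov (tup s)
        exact mem_biUnion hy ⟨g, hg⟩
      rw [Ultrafilter.finite_biUnion_mem_iff hS] at h1
      obtain ⟨y, hy, hmem⟩ := h1
      obtain ⟨t, gt, hgt⟩ := Ultrafilter.nonempty_of_mem hmem
      refine ⟨t, Filter.mem_of_superset hmem ?_⟩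
      rintro s ⟨gs, hgs⟩
      refine ⟨gt.symm.comp gs, fun i hi => ?_⟩
      have e1 := hgs (Fin.castAdd n ⟨i, hi⟩)
      have e2 := hgt (Fin.castAdd n ⟨i, hi⟩)
      have e3 := hgs (Fin.natAdd n ⟨i, hi⟩)
      have e4 := hgt (Fin.natAdd n ⟨i, hi⟩)
      simp only [tup, Fin.append_left, Fin.append_right] at e1 e2 e3 e4
      constructor
      · rw [Language.Equiv.comp_apply, e1, ← e2, Language.Equiv.symm_apply_apply]
      · rw [Language.Equiv.comp_apply, e3, ← e4, Language.Equiv.symm_apply_apply]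
    choose t ht using hlim
    have hstep : ∀ n, ∃ k : A ≃[L] A, ∀ i < n, k (t (n + 1) (e i)) = t n (e i) ∧ k (e i) = e i := by
      intro n
      obtain ⟨s, ⟨k1, h1⟩, ⟨k2, h2⟩⟩ := ((ht n).and (ht (n + 1))).exists
      refine ⟨k1.comp k2.symm, fun i hi => ?_⟩
      have a1 := h1 i hi
      have a2 := h2 i (by omega)
      constructor
      · rw [Language.Equiv.comp_apply, ← a2.1, Language.Equiv.symm_apply_apply, a1.1]
      · rw [Language.Equiv.comp_apply]
        have : k2.symm (e i) = e i := by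
          conv_lhs => rw [← a2.2]
          rw [Language.Equiv.symm_apply_apply]
        rw [this, a1.2]
    choose kk hkk using hstep
    let g : ℕ → (A ≃[L] A) := fun n => Nat.rec (Language.Equiv.refl L A) (fun n h => h.comp (kk n)) n
    have gs : ∀ n, g (n + 1) = (g n).comp (kk n) := fun n => rfl
    have g1 : ∀ i n m, i < n → n ≤ m → g m (e i) = g n (e i) ∧
        g m (t m (e i)) = g n (t n (e i)) := by
      intro i n m hi hnm
      induction m, hnm using Nat.le_induction with
      | base => exact ⟨rfl, rfl⟩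
      | succ m hm ih =>
        have h1 := hkk m i (by omega)
        rw [gs, Language.Equiv.comp_apply, Language.Equiv.comp_apply, h1.1, h1.2]
        exact ih
    let f0 : A → A := fun x => g (e.symm x + 1) x
    let h0 : A → A := fun x => g (e.symm x + 1) (t (e.symm x + 1) x)
    have hf0 : ∀ x n, e.symm x < n → g n x = f0 x := by
      intro x n hn
      have := (g1 (e.symm x) (e.symm x + 1) n (by omega) (by omega)).1
      rwa [Equiv.apply_symm_apply] at this
    have hh0 : ∀ x n, e.symm x < n → g n (t n x) = h0 x := by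
      intro x n hn
      have := (g1 (e.symm x) (e.symm x + 1) n (by omega) (by omega)).2
      rwa [Equiv.apply_symm_apply] at this
    have hbd : ∀ K : Finset A, ∃ n, ∀ x ∈ K, e.symm x < n := by
      intro K
      obtain ⟨N, hN⟩ := (K.finite_toSet.image e.symm).bddAbove
      exact ⟨N + 1, fun x hx => Nat.lt_succ_of_le (hN (mem_image_of_mem _ hx))⟩
    obtain ⟨f, hf⟩ := hom_of_approx (L := L) f0 (by
      intro K
      obtain ⟨n, hn⟩ := hbd K
      exact ⟨(g n).toHom, fun x hx => hf0 x n (hn x hx)⟩)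
    obtain ⟨h, hh⟩ := hom_of_approx (L := L) h0 (by
      intro K
      obtain ⟨n, hn⟩ := hbd K
      exact ⟨(g n).toHom.comp (t n), fun x hx => hh0 x n (hn x hx)⟩)
    -- the two limits differ
    have hdiff : h ≠ f.comp j := by
      intro heq
      have h1 : h a = f (j a) := by rw [heq]; rfl
      rw [hh, hf] at h1
      set n := max (e.symm a) (e.symm (j a)) + 1 with hn
      rw [← hh0 a n (by omega), ← hf0 (j a) n (by omega)] at h1
      have h2 : t n a = j a := (g n).injective h1
      obtain ⟨s, ⟨k, hk⟩, hs⟩ := ((ht n).and hU2).exists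
      have h3 := (hk (e.symm a) (by omega)).1
      have h4 := (hk (e.symm (j a)) (by omega)).2
      rw [Equiv.apply_symm_apply] at h3 h4
      apply hs
      apply k.injective
      rw [h3, h4, h2]
    obtain ⟨W1, W2, hW1, hW2, hm1, hm2, hdis⟩ := @t2_separation _ τ hT2 _ _ hdiff
    have hcont : Tendsto (fun p : (A →[L] A) × (A →[L] A) => p.1.comp p.2)
        (@nhds _ τ f ×ˢ @nhds _ τ j) (@nhds _ τ (f.comp j)) := by
      have := @Continuous.tendsto _ _ (@instTopologicalSpaceProd _ _ τ τ) τ _ hc (f, j)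
      rwa [@nhds_prod_eq _ _ τ τ] at this
    have hpre := hcont (@IsOpen.mem_nhds _ τ _ _ hW2 hm2)
    rw [mem_map, Filter.mem_prod_iff] at hpre
    obtain ⟨P, hP, Q, hQ, hPQ⟩ := hpre
    obtain ⟨n1, hn1⟩ := pw_mem_nhds e (nhds_mono hle hP)
    obtain ⟨n2, hn2⟩ := pw_mem_nhds e (nhds_mono hle (@IsOpen.mem_nhds _ τ _ _ hW1 hm1))
    set N := max n1 n2 with hN
    obtain ⟨s, ⟨k, hk⟩, hs⟩ := ((ht N).and (hU1 hQ)).exists
    have c1 : ((g N).comp k).toHom ∈ P := by
      refine hn1 _ fun i hi => ?_
      show g N (k (e i)) = f (e i)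
      rw [(hk i (by omega)).2, hf, hf0 (e i) N (by rw [Equiv.symm_apply_apply]; omega)]
    have c2 : ((g N).comp k).toHom.comp s ∈ W1 := by
      refine hn2 _ fun i hi => ?_
      show g N (k (s (e i))) = h (e i)
      rw [(hk i (by omega)).1, hh, hh0 (e i) N (by rw [Equiv.symm_apply_apply]; omega)]
    have c3 : ((g N).comp k).toHom.comp s ∈ W2 := hPQ (mk_mem_prod c1 hs)
    exact Set.disjoint_left.1 hdis c2 c3
  let _ : TopologicalSpace A := ⊥
  have _ : DiscreteTopology A := ⟨rfl⟩
  rw [pw, ← continuous_iff_le_induced]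
  refine continuous_pi fun a => ?_
  rw [continuous_iff_continuousAt]
  intro j
  rw [ContinuousAt, nhds_discrete A, tendsto_pure]
  exact key a j

end Pool.Agent.X219.ST
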