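import Mathlib
import Pool.Agent.X219.ST.Min

/-! Finitely many types imply finitely many orbits (homogeneity, by back and forth). -/

namespace Pool.Agent.X219.ST

open FirstOrder FirstOrder.Language Filter Topology Set

variable (L : Language) {A : Type*} [L.Structure A]

/-- The two tuples have the same type. -/
def Teq {n : ℕ} (x y : Fin n → A) : Prop :=
  ∀ D : Set (Fin n → A), (∅ : Set A).Definable L D → (x ∈ D ↔ y ∈ D)

/-- Finitely many types of `n`-tuples are realized. -/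
def FinTypes (A : Type*) [L.Structure A] (n : ℕ) : Prop :=
  ∃ S : Set (Fin n → A), S.Finite ∧ ∀ x, ∃ y ∈ S, Teq L x y

variable {L}

theorem Teq.symm {n : ℕ} {x y : Fin n → A} (h : Teq L x y) : Teq L y x := fun D hD => (h D hD).symm

theorem Teq.trans {n : ℕ} {x y z : Fin n → A} (h : Teq L x y) (h' : Teq L y z) : Teq L x z :=
  fun D hD => (h D hD).trans (h' D hD)

theorem Teq.comp {n m : ℕ} {x y : Fin n → A} (h : Teq L x y) (s : Fin m → Fin n) :
    Teq L (x ∘ s) (y ∘ s) := fun _ hD => h _ (hD.preimage_comp s)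

theorem isolate {n : ℕ} (hfin : FinTypes L A n) (x : Fin n → A) :
    ∃ D : Set (Fin n → A), (∅ : Set A).Definable L D ∧ x ∈ D ∧ ∀ y ∈ D, Teq L x y := by
  classical
  obtain ⟨S, hS, hcov⟩ := hfin
  have hex : ∀ w : Fin n → A, ∃ D : Set (Fin n → A), (∅ : Set A).Definable L D ∧ x ∈ D ∧
      (¬ Teq L x w → w ∉ D) := by
    intro w
    by_cases h : Teq L x w
    · exact ⟨Set.univ, definable_univ, trivial, fun h' => absurd h h'⟩
    · unfold Teq at h
      push Not at h
      obtain ⟨D, hD, h1⟩ := h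
      rcases h1 with ⟨h2, h3⟩ | ⟨h2, h3⟩
      · exact ⟨D, hD, h2, fun _ => h3⟩
      · exact ⟨Dᶜ, hD.compl, h2, fun _ h4 => h4 h3⟩
  choose D hD1 hD2 hD3 using hex
  refine ⟨⋂ w ∈ hS.toFinset, D w, definable_biInter_finset hD1 _, ?_, ?_⟩
  · simp only [mem_iInter]
    exact fun w _ => hD2 w
  · intro y hy
    simp only [mem_iInter] at hy
    obtain ⟨w, hw, hyw⟩ := hcov y
    have h1 := hy w (hS.mem_toFinset.2 hw)
    by_contra hne
    have h2 : ¬ Teq L x w := fun h => hne (h.trans hyw.symm)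
    exact hD3 w h2 ((hyw (D w) (hD1 w)).1 h1)

theorem extend {n : ℕ} (hfin : FinTypes L A (n + 1)) {x y : Fin n → A} (h : Teq L x y) (a : A) :
    ∃ b, Teq L (Fin.snoc x a : Fin (n + 1) → A) (Fin.snoc y b : Fin (n + 1) → A) := by
  obtain ⟨D, hD, hx, hall⟩ := isolate hfin (Fin.snoc x a : Fin (n + 1) → A)
  have hE := hD.image_comp (Fin.castSucc : Fin n → Fin (n + 1))
  have hxE : x ∈ (fun g : Fin (n + 1) → A => g ∘ (Fin.castSucc : Fin n → Fin (n + 1))) '' D := by
    refine ⟨_, hx, ?_⟩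
    funext i
    simp
  obtain ⟨g, hg, hgy⟩ := (h _ hE).1 hxE
  refine ⟨g (Fin.last n), hall _ ?_⟩
  have : (Fin.snoc y (g (Fin.last n)) : Fin (n + 1) → A) = g := by
    rw [← hgy]
    exact Fin.snoc_init_self g
  rw [this]
  exact hg

/-- Finite partial elementary maps. -/
def PE (L : Language) {A : Type*} [L.Structure A] (F : Finset (A × A)) : Prop :=
  ∀ (n : ℕ) (w : Fin n → A × A), (∀ i, w i ∈ F) → Teq L (Prod.fst ∘ w) (Prod.snd ∘ w)

theorem PE_of_enum {n : ℕ} (w0 : Fin n → A × A) (h : Teq L (Prod.fst ∘ w0) (Prod.snd ∘ w0))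
    (F : Finset (A × A)) (hF : ∀ p ∈ F, ∃ i, w0 i = p) : PE L F := by
  intro m w hw
  choose s hs using fun i => hF (w i) (hw i)
  have : w = w0 ∘ s := by
    funext i
    exact (hs i).symm
  rw [this]
  exact h.comp s

theorem PE_forth [DecidableEq A] (hfin : ∀ n, FinTypes L A n) {F : Finset (A × A)} (h : PE L F)
    (a : A) : ∃ b, PE L (insert (a, b) F) := by
  have h1 := h _ (fun i : Fin F.card => ((F.equivFin.symm i : F) : A × A)) (fun i => (F.equivFin.symm i).2)
  obtain ⟨b, hb⟩ := extend (hfin _) h1 a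
  refine ⟨b, PE_of_enum (Fin.snoc (fun i : Fin F.card => ((F.equivFin.symm i : F) : A × A)) (a, b)) ?_ _ ?_⟩
  · rw [Fin.comp_snoc, Fin.comp_snoc]
    exact hb
  · intro p hp
    rcases Finset.mem_insert.1 hp with hp | hp
    · exact ⟨Fin.last _, by rw [Fin.snoc_last, hp]⟩
    · refine ⟨Fin.castSucc (F.equivFin ⟨p, hp⟩), ?_⟩
      rw [Fin.snoc_castSucc]
      simp

theorem PE_swap [DecidableEq A] {F : Finset (A × A)} (h : PE L F) : PE L (F.image Prod.swap) := by
  intro n w hw
  have h1 : ∀ i, (Prod.swap ∘ w) i ∈ F := by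
    intro i
    obtain ⟨p, hp, hpw⟩ := Finset.mem_image.1 (hw i)
    show Prod.swap (w i) ∈ F
    rw [← hpw, Prod.swap_swap]
    exact hp
  exact (h n (Prod.swap ∘ w) h1).symm

theorem PE_back [DecidableEq A] (hfin : ∀ n, FinTypes L A n) {F : Finset (A × A)} (h : PE L F)
    (b : A) : ∃ a, PE L (insert (a, b) F) := by
  obtain ⟨a, ha⟩ := PE_forth hfin (PE_swap h) b
  refine ⟨a, ?_⟩
  have := PE_swap ha
  rw [Finset.image_insert, Finset.image_image] at this
  simpa using this

theorem definable_eq : (∅ : Set A).Definable L {v : Fin 2 → A | v 0 = v 1} := by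
  rw [empty_definable_iff]
  refine ⟨(Term.var 0 : L.Term (Fin 2)).equal (Term.var 1), ?_⟩
  ext v
  simp [Formula.realize_equal]

theorem definable_graph {m : ℕ} (F : L.Functions m) :
    (∅ : Set A).Definable L {v : Fin (m + 1) → A |
      v (Fin.last m) = Structure.funMap F (fun i : Fin m => v i.castSucc)} := by
  rw [empty_definable_iff]
  refine ⟨(Term.var (Fin.last m) : L.Term (Fin (m + 1))).equal
    (Term.func F fun i => Term.var i.castSucc), ?_⟩
  ext v
  simp [Formula.realize_equal]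

theorem definable_rel {m : ℕ} (r : L.Relations m) :
    (∅ : Set A).Definable L {v : Fin m → A | Structure.RelMap r v} := by
  rw [empty_definable_iff]
  refine ⟨r.formula fun i => Term.var i, ?_⟩
  ext v
  simp [Formula.realize_rel]

theorem orbit_of_teq [Countable A] (hfin : ∀ n, FinTypes L A n) {n : ℕ} {x y : Fin n → A}
    (h : Teq L x y) : ∃ g : A ≃[L] A, ∀ i, g (x i) = y i := by
  classical
  let Pm := {F : Finset (A × A) // PE L F}
  let p0 : Pm := ⟨Finset.univ.image (fun i => (x i, y i)), PE_of_enum (fun i => (x i, y i)) h _ (by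
    intro p hp
    obtain ⟨i, _, hi⟩ := Finset.mem_image.1 hp
    exact ⟨i, hi⟩)⟩
  let _ : Encodable (A ⊕ A) := Encodable.ofCountable _
  let 𝒟 : A ⊕ A → Order.Cofinal Pm := fun s => match s with
    | Sum.inl a => ⟨{F | ∃ b, (a, b) ∈ F.1}, fun F => by
        obtain ⟨b, hb⟩ := PE_forth hfin F.2 a
        exact ⟨⟨_, hb⟩, ⟨b, Finset.mem_insert_self _ _⟩, Finset.subset_insert _ _⟩⟩
    | Sum.inr b => ⟨{F | ∃ a, (a, b) ∈ F.1}, fun F => by
        obtain ⟨a, ha⟩ := PE_back hfin F.2 b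
        exact ⟨⟨_, ha⟩, ⟨a, Finset.mem_insert_self _ _⟩, Finset.subset_insert _ _⟩⟩
  let J := Order.idealOfCofinals p0 𝒟
  let R : A → A → Prop := fun a b => ∃ F ∈ J, (a, b) ∈ F.1
  have hJ : ∀ K : Finset (A × A), (∀ p ∈ K, R p.1 p.2) → ∃ F ∈ J, K ⊆ F.1 := by
    intro K
    induction K using Finset.induction with
    | empty => exact fun _ => ⟨p0, Order.mem_idealOfCofinals p0 𝒟, Finset.empty_subset _⟩
    | insert p K _ ih =>
      intro hK
      obtain ⟨F, hF, hsub⟩ := ih fun q hq => hK q (Finset.mem_insert_of_mem hq)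
      obtain ⟨F', hF', hp⟩ := hK p (Finset.mem_insert_self _ _)
      obtain ⟨F'', hF'', h1, h2⟩ := J.directed F hF F' hF'
      refine ⟨F'', hF'', ?_⟩
      intro q hq
      rcases Finset.mem_insert.1 hq with hq | hq
      · rw [hq]; exact h2 hp
      · exact h1 (hsub hq)
  have hR : ∀ (m : ℕ) (w : Fin m → A × A), (∀ i, R (w i).1 (w i).2) →
      Teq L (Prod.fst ∘ w) (Prod.snd ∘ w) := by
    intro m w hw
    obtain ⟨F, _, hF⟩ := hJ (Finset.univ.image w) (by
      intro p hp
      obtain ⟨i, _, rfl⟩ := Finset.mem_image.1 hp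
      exact hw i)
    exact F.2 m w fun i => hF (Finset.mem_image_of_mem _ (Finset.mem_univ i))
  have htot : ∀ a, ∃ b, R a b := by
    intro a
    obtain ⟨F, hF1, hF2⟩ := Order.cofinal_meets_idealOfCofinals p0 𝒟 (Sum.inl a)
    obtain ⟨b, hb⟩ := hF1
    exact ⟨b, F, hF2, hb⟩
  have hsur : ∀ b, ∃ a, R a b := by
    intro b
    obtain ⟨F, hF1, hF2⟩ := Order.cofinal_meets_idealOfCofinals p0 𝒟 (Sum.inr b)
    obtain ⟨a, ha⟩ := hF1
    exact ⟨a, F, hF2, ha⟩
  have huniq : ∀ a b a' b', R a b → R a' b' → (a = a' ↔ b = b') := by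
    intro a b a' b' h1 h2
    have h3 := hR 2 ![(a, b), (a', b')] (by
      intro i
      fin_cases i
      · exact h1
      · exact h2) _ definable_eq
    simpa using h3
  choose g hg using htot
  choose g' hg' using hsur
  have hgg' : ∀ b, g (g' b) = b := fun b => (huniq _ _ _ _ (hg (g' b)) (hg' b)).1 rfl
  have hg'g : ∀ a, g' (g a) = a := fun a => (huniq _ _ _ _ (hg' (g a)) (hg a)).2 rfl
  refine ⟨⟨⟨g, g', hg'g, hgg'⟩, ?_, ?_⟩, fun i => ?_⟩
  · intro m F v
    have h1 := hR (m + 1) (Fin.snoc (fun i => (v i, g (v i)))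
      (Structure.funMap F v, g (Structure.funMap F v))) (by
        intro i
        refine Fin.lastCases ?_ (fun i => ?_) i
        · rw [Fin.snoc_last]; exact hg _
        · rw [Fin.snoc_castSucc]; exact hg _) _ (definable_graph F)
    rw [Fin.comp_snoc, Fin.comp_snoc] at h1
    simp only [mem_ofPred_eq, Fin.snoc_last, Fin.snoc_castSucc] at h1
    exact h1.1 rfl
  · intro m r v
    have h1 := hR m (fun i => (v i, g (v i))) (fun i => hg _) _ (definable_rel r)
    exact h1.symm
  · show g (x i) = y i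
    have h1 : R (x i) (y i) := ⟨p0, Order.mem_idealOfCofinals p0 𝒟,
      Finset.mem_image_of_mem _ (Finset.mem_univ i)⟩
    exact (huniq _ _ _ _ (hg (x i)) h1).1 rfl

theorem oligo_of_finTypes [Countable A] (hfin : ∀ n, FinTypes L A n) : Oligo L A := by
  intro n
  obtain ⟨S, hS, hcov⟩ := hfin n
  refine ⟨S, hS, fun x => ?_⟩
  obtain ⟨y, hy, hxy⟩ := hcov x
  exact ⟨y, hy, orbit_of_teq hfin hxy⟩

end Pool.Agent.X219.ST
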