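import Mathlib
import Pool.Agent.X219.ST.Types

/-! A countable structure in a countable language whose theory is `ℵ₀`-categorical has finitely many
orbits on `n`-tuples (one direction of the Ryll-Nardzewski theorem). -/

namespace Pool.Agent.X219.ST

open FirstOrder FirstOrder.Language Filter Topology Set

variable {L : FirstOrder.Language.{0, 0}} {A : Type} [L.Structure A]

/-- Subsets of `A^ℕ` that are definable with finitely many variables. -/
def FD (L : FirstOrder.Language.{0, 0}) {A : Type} [L.Structure A] (C : Set (ℕ → A)) : Prop :=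
  ∃ (K : ℕ) (D : Set (Fin K → A)), (∅ : Set A).Definable L D ∧ C = {v | (fun i : Fin K => v i) ∈ D}

theorem FD_lift {K K' : ℕ} (hK : K ≤ K') {D : Set (Fin K → A)} (hD : (∅ : Set A).Definable L D) :
    ∃ D' : Set (Fin K' → A), (∅ : Set A).Definable L D' ∧
      ∀ v : ℕ → A, ((fun i : Fin K' => v i) ∈ D' ↔ (fun i : Fin K => v i) ∈ D) :=
  ⟨_, hD.preimage_comp (Fin.castLE hK), fun _ => Iff.rfl⟩

theorem FD_inter {C C' : Set (ℕ → A)} (h : FD L C) (h' : FD L C') : FD L (C ∩ C') := by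
  obtain ⟨K, D, hD, rfl⟩ := h
  obtain ⟨K', D', hD', rfl⟩ := h'
  obtain ⟨E, hE, h1⟩ := FD_lift (le_max_left K K') hD
  obtain ⟨E', hE', h2⟩ := FD_lift (le_max_right K K') hD'
  refine ⟨max K K', E ∩ E', hE.inter hE', ?_⟩
  ext v
  simp only [mem_inter_iff, mem_ofPred_eq]
  rw [h1, h2]

theorem bound {m : ℕ} (t : Fin m → ℕ) : ∃ K, ∀ i, t i < K := by
  obtain ⟨N, hN⟩ := (Set.finite_range t).bddAbove
  exact ⟨N + 1, fun i => Nat.lt_succ_of_le (hN ⟨i, rfl⟩)⟩

theorem FD_pre {m : ℕ} (t : Fin m → ℕ) {D : Set (Fin m → A)} (hD : (∅ : Set A).Definable L D) :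
    FD L {v : ℕ → A | v ∘ t ∈ D} := by
  obtain ⟨K, hK⟩ := bound t
  exact ⟨K, _, hD.preimage_comp (fun i => (⟨t i, hK i⟩ : Fin K)), rfl⟩

theorem def_bf {m : ℕ} (φ : L.BoundedFormula Empty m) :
    (∅ : Set A).Definable L {w : Fin m → A | φ.Realize default w} := by
  rw [empty_definable_iff]
  refine ⟨φ.toFormula.relabel (Sum.elim Empty.elim id), ?_⟩
  ext w
  simp only [mem_ofPred_eq, Formula.realize_relabel, BoundedFormula.realize_toFormula]
  have : (w ∘ Sum.elim Empty.elim id) ∘ Sum.inl = (default : Empty → A) := Subsingleton.elim _ _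
  rw [this]
  rfl

/-- witness requirement -/
def H1 (C : Set (ℕ → A)) (m : ℕ) (φ : L.BoundedFormula Empty (m + 1)) (t : Fin m → ℕ) : Prop :=
  ∃ j : ℕ, ∀ v ∈ C, (∃ a, φ.Realize default (Fin.snoc (v ∘ t) a : Fin (m + 1) → A)) →
    φ.Realize default (Fin.snoc (v ∘ t) (v j) : Fin (m + 1) → A)

theorem step1 {C : Set (ℕ → A)} (hC : FD L C) (hne : C.Nonempty) (m : ℕ)
    (φ : L.BoundedFormula Empty (m + 1)) (t : Fin m → ℕ) :
    ∃ C' ⊆ C, FD L C' ∧ C'.Nonempty ∧ H1 C' m φ t := by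
  obtain ⟨K0, hK0⟩ := bound t
  obtain ⟨K, D, hD, hCD⟩ := hC
  let j := max K0 K
  have hd1 : (∅ : Set A).Definable L {w : Fin (m + 1) → A | φ.Realize default w} := def_bf φ
  have hd2 := (hd1.image_comp (Fin.castSucc : Fin m → Fin (m + 1))).preimage_comp
    (Fin.castSucc : Fin m → Fin (m + 1))
  let D3 : Set (Fin (m + 1) → A) :=
    ((fun g : Fin (m + 1) → A => g ∘ (Fin.castSucc : Fin m → Fin (m + 1))) ⁻¹'
      ((fun g : Fin (m + 1) → A => g ∘ (Fin.castSucc : Fin m → Fin (m + 1))) ''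
        {w : Fin (m + 1) → A | φ.Realize default w}))ᶜ ∪
      {w : Fin (m + 1) → A | φ.Realize default w}
  have hd3 : (∅ : Set A).Definable L D3 := hd2.compl.union hd1
  have hE : ∀ v : ℕ → A, (v ∘ (Fin.snoc t j : Fin (m + 1) → ℕ)) =
      (Fin.snoc (v ∘ t) (v j) : Fin (m + 1) → A) := fun v => Fin.comp_snoc v t j
  refine ⟨C ∩ {v : ℕ → A | v ∘ (Fin.snoc t j : Fin (m + 1) → ℕ) ∈ D3}, inter_subset_left,
    FD_inter ⟨K, D, hD, hCD⟩ (FD_pre (Fin.snoc t j) hd3), ?_, ?_⟩
  · obtain ⟨v, hv⟩ := hne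
    by_cases hex : ∃ a, φ.Realize default (Fin.snoc (v ∘ t) a : Fin (m + 1) → A)
    · obtain ⟨a, ha⟩ := hex
      have h1 : Function.update v j a ∘ t = v ∘ t := by
        funext i
        have : t i ≠ j := by
          have := hK0 i
          omega
        simp [Function.update_of_ne this]
      refine ⟨Function.update v j a, ?_, ?_⟩
      · rw [hCD] at hv ⊢
        have h2 : (fun i : Fin K => Function.update v j a i) = fun i : Fin K => v i := by
          funext i
          have := i.2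
          exact Function.update_of_ne (by omega) _ _
        rw [mem_ofPred_eq, h2]
        exact hv
      · show Function.update v j a ∘ (Fin.snoc t j : Fin (m + 1) → ℕ) ∈ D3
        rw [hE, h1, Function.update_self]
        right
        exact ha
    · refine ⟨v, hv, ?_⟩
      left
      rintro ⟨w, hw, hw'⟩
      apply hex
      refine ⟨w (Fin.last m), ?_⟩
      have h2 : (Fin.snoc (v ∘ t) (w (Fin.last m)) : Fin (m + 1) → A) = w := by
        have h3 : w ∘ (Fin.castSucc : Fin m → Fin (m + 1)) = v ∘ t := by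
          have h4 : (fun g : Fin (m + 1) → A => g ∘ (Fin.castSucc : Fin m → Fin (m + 1))) w =
            (v ∘ (Fin.snoc t j : Fin (m + 1) → ℕ)) ∘ (Fin.castSucc : Fin m → Fin (m + 1)) := hw'
          rw [hE] at h4
          rw [show w ∘ (Fin.castSucc : Fin m → Fin (m + 1)) = _ from h4]
          funext i
          simp
        rw [← h3]
        exact Fin.snoc_init_self w
      rw [h2]
      exact hw
  · refine ⟨j, ?_⟩
    rintro v ⟨_, hv⟩ ⟨a, ha⟩
    have hv' : v ∘ (Fin.snoc t j : Fin (m + 1) → ℕ) ∈ D3 := hv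
    rw [hE] at hv'
    rcases hv' with h | h
    · exfalso
      apply h
      refine ⟨Fin.snoc (v ∘ t) a, ha, ?_⟩
      funext i
      simp
    · exact h

/-- omitting requirement -/
def H2 {n : ℕ} (u : ℕ → Fin n → A) (C : Set (ℕ → A)) (t : Fin n → ℕ) : Prop :=
  ∃ φ : L.Formula (Fin n), (∀ᶠ i in (hyperfilter ℕ : Filter ℕ), φ.Realize (u i)) ∧
    ∀ v ∈ C, ¬ φ.Realize (v ∘ t)

theorem not_isolated {n : ℕ} {u : ℕ → Fin n → A} (hu : ∀ i j, Teq L (u i) (u j) → i = j)
    {E : Set (Fin n → A)} (hE : (∅ : Set A).Definable L E) (hne : E.Nonempty) :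
    ∃ φ : L.Formula (Fin n), (∀ᶠ i in (hyperfilter ℕ : Filter ℕ), φ.Realize (u i)) ∧
      ∃ x ∈ E, ¬ φ.Realize x := by
  by_contra hno
  push Not at hno
  have key : ∀ D : Set (Fin n → A), (∅ : Set A).Definable L D →
      (∀ᶠ i in (hyperfilter ℕ : Filter ℕ), u i ∈ D) → E ⊆ D := by
    intro D hD hev
    obtain ⟨φ, rfl⟩ := empty_definable_iff.1 hD
    exact fun x hx => hno φ hev x hx
  have hEv : ∀ᶠ i in (hyperfilter ℕ : Filter ℕ), u i ∈ E := by
    rcases Ultrafilter.em (hyperfilter ℕ) (fun i => u i ∈ E) with h | h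
    · exact h
    · obtain ⟨x, hx⟩ := hne
      exact absurd hx (key Eᶜ hE.compl h hx)
  have hinf : {i | u i ∈ E}.Infinite := by
    intro hfin
    have := hfin.compl_mem_hyperfilter
    have h2 := Filter.inter_mem hEv this
    have h3 : ({x | u x ∈ E} ∩ {i | u i ∈ E}ᶜ) = ∅ := Set.inter_compl_self _
    rw [h3] at h2
    exact (Ultrafilter.neBot (hyperfilter ℕ)).ne (Filter.empty_mem_iff_bot.1 h2)
  obtain ⟨i, hi⟩ := hinf.nonempty
  obtain ⟨j, hj, hij⟩ := hinf.exists_gt i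
  have hne' : ¬ Teq L (u i) (u j) := fun h => by
    have := hu i j h
    omega
  unfold Teq at hne'
  push Not at hne'
  obtain ⟨D, hD, hD'⟩ := hne'
  rcases Ultrafilter.em (hyperfilter ℕ) (fun i => u i ∈ D) with h | h
  · have := key D hD h
    rcases hD' with ⟨_, h2⟩ | ⟨h2, _⟩
    · exact h2 (this hj)
    · exact h2 (this hi)
  · have := key Dᶜ hD.compl h
    rcases hD' with ⟨h2, _⟩ | ⟨_, h2⟩
    · exact this hi h2
    · exact this hj h2

theorem step2 {n : ℕ} {u : ℕ → Fin n → A} (hu : ∀ i j, Teq L (u i) (u j) → i = j)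
    {C : Set (ℕ → A)} (hC : FD L C) (hne : C.Nonempty) (t : Fin n → ℕ) :
    ∃ C' ⊆ C, FD L C' ∧ C'.Nonempty ∧ H2 (L := L) u C' t := by
  obtain ⟨K0, hK0⟩ := bound t
  obtain ⟨K, D, hD, hCD⟩ := hC
  obtain ⟨D', hD', hiff⟩ := FD_lift (le_max_right K0 K) hD
  have ht : ∀ i, t i < max K0 K := fun i => lt_of_lt_of_le (hK0 i) (le_max_left _ _)
  let t' : Fin n → Fin (max K0 K) := fun i => ⟨t i, ht i⟩
  have hE := hD'.image_comp t'
  obtain ⟨v0, hv0⟩ := hne
  have hv0' : (fun i : Fin (max K0 K) => v0 i) ∈ D' := by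
    rw [hiff]
    rw [hCD] at hv0
    exact hv0
  obtain ⟨φ, hφ1, x, hx, hφ2⟩ := not_isolated hu hE ⟨_, mem_image_of_mem _ hv0'⟩
  obtain ⟨g, hg, rfl⟩ := hx
  let v : ℕ → A := fun k => if h : k < max K0 K then g ⟨k, h⟩ else v0 0
  have hvg : (fun i : Fin (max K0 K) => v i) = g := by
    funext i
    show (if h : (i : ℕ) < max K0 K then g ⟨i, h⟩ else v0 0) = g i
    rw [dif_pos i.2]
  have hvt : v ∘ t = g ∘ t' := by
    funext i
    show (if h : t i < max K0 K then g ⟨t i, h⟩ else v0 0) = g (t' i)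
    rw [dif_pos (ht i)]
  have hdef : (∅ : Set A).Definable L {w : Fin n → A | φ.Realize w} :=
    empty_definable_iff.2 ⟨φ, rfl⟩
  refine ⟨C ∩ {v : ℕ → A | v ∘ t ∈ {w : Fin n → A | φ.Realize w}ᶜ}, inter_subset_left,
    FD_inter ⟨K, D, hD, hCD⟩ (FD_pre t hdef.compl), ⟨v, ?_, ?_⟩, φ, hφ1, ?_⟩
  · rw [hCD, mem_ofPred_eq, ← hiff, hvg]
    exact hg
  · show ¬ φ.Realize (v ∘ t)
    rw [hvt]
    exact hφ2
  · exact fun w hw => hw.2

/-- the ultrapower of `A` -/
abbrev Ult (A : Type) : Type := (hyperfilter ℕ : Filter ℕ).Product (fun _ : ℕ => A)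

/-- the class of a sequence -/
noncomputable def mk (w : ℕ → A) : Ult A := @Quotient.mk' _ (Filter.productSetoid _ _) w

theorem mk_surj (x : Ult A) : ∃ w : ℕ → A, mk w = x := by
  obtain ⟨w, hw⟩ := Quotient.exists_rep x
  exact ⟨w, hw⟩

section
variable [Nonempty A]

theorem cast_bf {m : ℕ} (φ : L.BoundedFormula Empty (m + 1)) (w : Fin m → ℕ → A) (c : ℕ → A) :
    φ.Realize (M := Ult A) default (Fin.snoc (fun k => mk (w k)) (mk c) : Fin (m + 1) → Ult A) ↔
      ∀ᶠ i in (hyperfilter ℕ : Filter ℕ),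
        φ.Realize (M := A) default (Fin.snoc (fun k => w k i) (c i) : Fin (m + 1) → A) := by
  have h : φ.Realize (M := Ult A) (fun i : Empty => mk (i.elim : ℕ → A))
      (fun i => mk ((Fin.snoc w c : Fin (m + 1) → ℕ → A) i)) ↔
      ∀ᶠ a in (hyperfilter ℕ : Filter ℕ), φ.Realize (M := A) (fun i : Empty => (i.elim : ℕ → A) a)
        (fun i => (Fin.snoc w c : Fin (m + 1) → ℕ → A) i a) :=
    Ultraproduct.boundedFormula_realize_cast (u := hyperfilter ℕ) (M := fun _ : ℕ => A) φ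
      (fun x : Empty => x.elim) (Fin.snoc w c : Fin (m + 1) → ℕ → A)
  have e1 : (fun i => mk ((Fin.snoc w c : Fin (m + 1) → ℕ → A) i) : Fin (m + 1) → Ult A) =
      (Fin.snoc (fun k => mk (w k)) (mk c) : Fin (m + 1) → Ult A) := by
    funext i
    refine Fin.lastCases ?_ (fun i => ?_) i
    · rw [Fin.snoc_last, Fin.snoc_last]
    · rw [Fin.snoc_castSucc, Fin.snoc_castSucc]
  have e2 : ∀ a : ℕ, (fun i => (Fin.snoc w c : Fin (m + 1) → ℕ → A) i a : Fin (m + 1) → A) =
      (Fin.snoc (fun k => w k a) (c a) : Fin (m + 1) → A) := by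
    intro a
    funext i
    refine Fin.lastCases ?_ (fun i => ?_) i
    · rw [Fin.snoc_last, Fin.snoc_last]
    · rw [Fin.snoc_castSucc, Fin.snoc_castSucc]
  rw [e1] at h
  simp only [e2] at h
  rw [show (default : Empty → Ult A) = (fun i : Empty => mk (i.elim : ℕ → A)) from
    Subsingleton.elim _ _]
  refine h.trans ?_
  refine Filter.eventually_congr (Eventually.of_forall fun a => ?_)
  rw [show (fun i : Empty => (i.elim : ℕ → A) a) = (default : Empty → A) from
    Subsingleton.elim _ _]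

theorem cast_f {n : ℕ} (φ : L.Formula (Fin n)) (w : Fin n → ℕ → A) :
    φ.Realize (M := Ult A) (fun k => mk (w k)) ↔
      ∀ᶠ i in (hyperfilter ℕ : Filter ℕ), φ.Realize (M := A) (fun k => w k i) :=
  Ultraproduct.realize_formula_cast (u := hyperfilter ℕ) (M := fun _ : ℕ => A) φ w

theorem ult_equiv : L.completeTheory A = L.completeTheory (Ult A) := by
  ext φ
  rw [mem_completeTheory, mem_completeTheory]
  have h := Ultraproduct.sentence_realize (u := hyperfilter ℕ) (M := fun _ : ℕ => A) φ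
  rw [h, eventually_const]

end

end Pool.Agent.X219.ST
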