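import Mathlib
import Pool.Agent.X219.ST.RN

/-! Ryll-Nardzewski, continued: the omitting model, and the conclusion. -/

namespace Pool.Agent.X219.ST

open FirstOrder FirstOrder.Language Filter Topology Set

variable {L : FirstOrder.Language.{0, 0}} {A : Type} [L.Structure A]

theorem countable_bf (hL : L.card ≤ Cardinal.aleph0) :
    Countable (Σ n : ℕ, L.BoundedFormula Empty n) := by
  rw [← Cardinal.mk_le_aleph0_iff]
  refine (BoundedFormula.card_le).trans ?_
  refine max_le le_rfl ?_
  simp only [Cardinal.mk_eq_zero, zero_add, Cardinal.lift_id]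
  exact hL

/-- A sequence of assignments meeting all witness and omitting requirements. -/
theorem exists_sequence [Nonempty A] (hL : L.card ≤ Cardinal.aleph0) {n : ℕ} {u : ℕ → Fin n → A}
    (hu : ∀ i j, Teq L (u i) (u j) → i = j) :
    ∃ v : ℕ → ℕ → A,
      (∀ (m : ℕ) (φ : L.BoundedFormula Empty (m + 1)) (t : Fin m → ℕ), ∃ j N : ℕ, ∀ i ≥ N,
        (∃ a, φ.Realize default (Fin.snoc (v i ∘ t) a : Fin (m + 1) → A)) →
          φ.Realize default (Fin.snoc (v i ∘ t) (v i j) : Fin (m + 1) → A)) ∧
      (∀ t : Fin n → ℕ, ∃ φ : L.Formula (Fin n),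
        (∀ᶠ i in (hyperfilter ℕ : Filter ℕ), φ.Realize (u i)) ∧
        ∃ N : ℕ, ∀ i ≥ N, ¬ φ.Realize (v i ∘ t)) := by
  classical
  have : Countable (Σ n : ℕ, L.BoundedFormula Empty n) := countable_bf hL
  have hc : ∀ m, Countable (L.BoundedFormula Empty m) := fun m =>
    Function.Injective.countable (f := fun φ => (⟨m, φ⟩ : Σ n : ℕ, L.BoundedFormula Empty n))
      (fun a b h => by simpa using h)
  let Req := (Σ m : ℕ, L.BoundedFormula Empty (m + 1) × (Fin m → ℕ)) ⊕ (Fin n → ℕ)
  have hReq : Countable Req := inferInstance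
  have hne : Nonempty Req := ⟨Sum.inr fun _ => 0⟩
  obtain ⟨r, hr⟩ := exists_surjective_nat Req
  let Hd : Set (ℕ → A) → Req → Prop := fun C q => match q with
    | Sum.inl q => H1 C q.1 q.2.1 q.2.2
    | Sum.inr t => H2 (L := L) u C t
  let Gd := {C : Set (ℕ → A) // FD L C ∧ C.Nonempty}
  have step : ∀ (C : Gd) (q : Req), ∃ C' : Gd, C'.1 ⊆ C.1 ∧ Hd C'.1 q := by
    intro C q
    match q with
    | Sum.inl q =>
      obtain ⟨C', h1, h2, h3, h4⟩ := step1 C.2.1 C.2.2 q.1 q.2.1 q.2.2
      exact ⟨⟨C', h2, h3⟩, h1, h4⟩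
    | Sum.inr t =>
      obtain ⟨C', h1, h2, h3, h4⟩ := step2 hu C.2.1 C.2.2 t
      exact ⟨⟨C', h2, h3⟩, h1, h4⟩
  choose nxt hn1 hn2 using step
  let C0 : Gd := ⟨Set.univ, ⟨0, Set.univ, definable_univ, by ext; simp⟩, Set.univ_nonempty⟩
  let sq : ℕ → Gd := fun k => Nat.rec C0 (fun i C => nxt C (r i)) k
  have sqs : ∀ i, sq (i + 1) = nxt (sq i) (r i) := fun i => rfl
  have anti : ∀ i j, i ≤ j → (sq j).1 ⊆ (sq i).1 := by
    intro i j hij
    induction j, hij using Nat.le_induction with
    | base => exact Subset.rfl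
    | succ j _ ih =>
      rw [sqs]
      exact (hn1 _ _).trans ih
  choose v hv using fun i => (sq i).2.2
  refine ⟨v, fun m φ t => ?_, fun t => ?_⟩
  · obtain ⟨k, hk⟩ := hr (Sum.inl ⟨m, φ, t⟩)
    have h := hn2 (sq k) (r k)
    rw [← sqs, hk] at h
    obtain ⟨j, hj⟩ := h
    exact ⟨j, k + 1, fun i hi => hj (v i) (anti _ _ hi (hv i))⟩
  · obtain ⟨k, hk⟩ := hr (Sum.inr t)
    have h := hn2 (sq k) (r k)
    rw [← sqs, hk] at h
    obtain ⟨φ, hφ1, hφ2⟩ := h
    exact ⟨φ, hφ1, k + 1, fun i hi => hφ2 (v i) (anti _ _ hi (hv i))⟩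

theorem ev_of_ge {p : ℕ → Prop} (N : ℕ) (h : ∀ i ≥ N, p i) :
    ∀ᶠ i in (hyperfilter ℕ : Filter ℕ), p i := by
  have h1 : ∀ᶠ i in atTop, p i := Filter.eventually_atTop.2 ⟨N, h⟩
  rw [← Nat.cofinite_eq_atTop] at h1
  exact hyperfilter_le_cofinite h1

/-- The omitting elementary substructure of the ultrapower. -/
theorem exists_omitting [Nonempty A] (hL : L.card ≤ Cardinal.aleph0) {n : ℕ}
    {u : ℕ → Fin n → A} (hu : ∀ i j, Teq L (u i) (u j) → i = j) :
    ∃ S : L.ElementarySubstructure (Ult A), Countable S ∧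
      ∀ y : Fin n → S, ∃ φ : L.Formula (Fin n),
        (∀ᶠ i in (hyperfilter ℕ : Filter ℕ), φ.Realize (u i)) ∧ ¬ φ.Realize y := by
  classical
  obtain ⟨v, hv1, hv2⟩ := exists_sequence hL hu
  let b : ℕ → Ult A := fun k => mk fun i => v i k
  have hb : ∀ {m : ℕ} (φ : L.BoundedFormula Empty (m + 1)) (t : Fin m → ℕ) (a : Ult A),
      φ.Realize default (Fin.snoc (b ∘ t) a : Fin (m + 1) → Ult A) →
      ∃ j, φ.Realize default (Fin.snoc (b ∘ t) (b j) : Fin (m + 1) → Ult A) := by
    intro m φ t a ha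
    obtain ⟨c, rfl⟩ := mk_surj a
    obtain ⟨j, N, hj⟩ := hv1 m φ t
    have h1 := (cast_bf φ (fun k i => v i (t k)) c).1 ha
    refine ⟨j, (cast_bf φ (fun k i => v i (t k)) (fun i => v i j)).2 ?_⟩
    filter_upwards [h1, ev_of_ge N hj] with i h2 h3
    exact h3 ⟨c i, h2⟩
  let S0 : L.Substructure (Ult A) :=
    { carrier := range b
      fun_mem := by
        intro m F x hx
        choose t ht using fun i => hx i
        have hbt : b ∘ t = x := by
          funext i
          exact ht i
        let φ : L.BoundedFormula Empty (m + 1) :=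
          (Term.var (Sum.inr (Fin.last m)) : L.Term (Empty ⊕ Fin (m + 1))).bdEqual
            (Term.func F fun i => Term.var (Sum.inr i.castSucc))
        have hφ : ∀ w : Fin (m + 1) → Ult A, φ.Realize default w ↔
            w (Fin.last m) = Structure.funMap F (fun i : Fin m => w i.castSucc) := by
          intro w
          simp [φ, BoundedFormula.realize_bdEqual]
        obtain ⟨j, hj⟩ := hb φ t (Structure.funMap F x) (by
          rw [hφ]
          simp only [Fin.snoc_last, Fin.snoc_castSucc]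
          rw [← hbt])
        rw [hφ] at hj
        simp only [Fin.snoc_last, Fin.snoc_castSucc] at hj
        refine ⟨j, hj.trans ?_⟩
        rw [← hbt] }
  have hS0 : S0.IsElementary := by
    refine S0.isElementary_of_exists fun m φ x a ha => ?_
    choose t ht using fun i => (x i).2
    have hbt : (Subtype.val ∘ x : Fin m → Ult A) = b ∘ t := by
      funext i
      exact (ht i).symm
    rw [hbt] at ha
    obtain ⟨j, hj⟩ := hb φ t a ha
    refine ⟨⟨b j, j, rfl⟩, ?_⟩
    rw [hbt]
    exact hj
  refine ⟨⟨S0, hS0⟩, ?_, fun y => ?_⟩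
  · exact (countable_range b).to_subtype
  · choose t ht using fun i => (y i).2
    obtain ⟨φ, hφ1, N, hφ2⟩ := hv2 t
    refine ⟨φ, hφ1, fun hreal => ?_⟩
    have h1 := ((⟨S0, hS0⟩ : L.ElementarySubstructure (Ult A)).subtype.map_formula φ y).2 hreal
    have h2 : (⇑(⟨S0, hS0⟩ : L.ElementarySubstructure (Ult A)).subtype ∘ y : Fin n → Ult A) =
        fun k => mk (fun i => v i (t k)) := by
      funext k
      exact (ht k).symm
    rw [h2, cast_f] at h1
    have h3 := h1.and (ev_of_ge N hφ2)
    obtain ⟨i, h4, h5⟩ := h3.exists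
    exact h5 h4

theorem finTypes_of_categorical [Countable A] [Infinite A] (hL : L.card ≤ Cardinal.aleph0)
    (h : Cardinal.Categorical Cardinal.aleph0.{0} (L.completeTheory A)) (n : ℕ) : FinTypes L A n := by
  classical
  by_contra hno
  -- infinitely many types
  let st : Setoid (Fin n → A) :=
    ⟨Teq L, ⟨fun x D _ => Iff.rfl, fun h => h.symm, fun h h' => h.trans h'⟩⟩
  have hinf : Infinite (Quotient st) := by
    by_contra hfin
    rw [not_infinite_iff_finite] at hfin
    apply hno
    refine ⟨range (Quotient.out : Quotient st → Fin n → A), finite_range _, fun x => ?_⟩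
    refine ⟨Quotient.out (Quotient.mk st x), ⟨_, rfl⟩, ?_⟩
    have h1 : st (Quotient.out (Quotient.mk st x)) x := Quotient.mk_out x
    exact Teq.symm h1
  let u : ℕ → Fin n → A := fun i => Quotient.out (Infinite.natEmbedding (Quotient st) i)
  have hu : ∀ i j, Teq L (u i) (u j) → i = j := by
    intro i j hij
    have h1 : Infinite.natEmbedding (Quotient st) i = Infinite.natEmbedding (Quotient st) j := by
      rw [← Quotient.out_eq (Infinite.natEmbedding (Quotient st) i),
        ← Quotient.out_eq (Infinite.natEmbedding (Quotient st) j)]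
      exact Quotient.sound hij
    exact (Infinite.natEmbedding (Quotient st)).injective h1
  have hequiv : A ≅[L] (Ult A) := ult_equiv
  have hinfU : Infinite (Ult A) := hequiv.infinite_iff.1 inferInstance
  have hmodU : (Ult A) ⊨ L.completeTheory A := by
    rw [hequiv]
    exact Theory.model_iff_subset_completeTheory.2 (subset_refl _)
  obtain ⟨S, hSc, hS⟩ := exists_omitting hL hu
  obtain ⟨S', hS'1, hS'2⟩ := exists_elementarySubstructure_card_eq L
    (range fun k : Fin n => mk fun i => u i k) Cardinal.aleph0.{0} le_rfl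
    (by
      simp only [Cardinal.lift_id]
      exact (Cardinal.mk_le_aleph0_iff.2 (finite_range _).countable.to_subtype))
    (by simpa using hL)
    (by
      simp only [Cardinal.lift_id]
      exact Cardinal.aleph0_le_mk _)
  have hinfS : Infinite S := (S.elementarilyEquivalent.infinite_iff).2 hinfU
  have cS : Cardinal.mk S = Cardinal.aleph0 := Cardinal.mk_eq_aleph0 S
  have cS' : Cardinal.mk S' = Cardinal.aleph0 := by simpa using hS'2
  have hinfS' : Infinite S' := (S'.elementarilyEquivalent.infinite_iff).2 hinfU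
  obtain ⟨iso⟩ := h (Theory.ModelType.of (L.completeTheory A) S')
    (Theory.ModelType.of (L.completeTheory A) S) cS' cS
  let z' : Fin n → S' := fun k => ⟨mk fun i => u i k, hS'1 ⟨k, rfl⟩⟩
  obtain ⟨φ, hφ1, hφ2⟩ := hS (fun k => iso (z' k))
  apply hφ2
  have h1 : φ.Realize z' := by
    rw [← S'.subtype.map_formula φ z']
    exact (cast_f φ (fun k i => u i k)).2 hφ1
  have h2 := (StrongHomClass.realize_formula iso φ (v := z')).2 h1
  exact h2

theorem oligo_of_categorical [Countable A] [Infinite A] (hL : L.card ≤ Cardinal.aleph0)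
    (h : Cardinal.Categorical Cardinal.aleph0.{0} (L.completeTheory A)) : Oligo L A :=
  oligo_of_finTypes fun n => finTypes_of_categorical hL h n

end Pool.Agent.X219.ST
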